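import Pool.Agent.Helper82.Hf10
import Pool.Agent.Helper82.Fld
import Pool.Agent.Helper954.Hopf.AB
import Pool.Agent.Helper954.Hopf.EX3

set_option autoImplicit false

namespace Pool.Agent.Results.MP_8bdec9_gt.AllSpaceForms

open MeasureTheory Metric Set
open scoped ContDiff

section definitions

/-! Throughout, `W` is a finite dimensional Euclidean space (in the theorem `W = ℝ^(2m+2)`) and the
round sphere of radius `ρ` is `{x ∈ W | ‖x‖ = ρ}`, of sectional curvature `1/ρ²` and of dimension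
`dim W - 1`. -/

variable {W : Type} [NormedAddCommGroup W] [InnerProductSpace ℝ W] [FiniteDimensional ℝ W]

/-- The group `G` of linear isometries acts freely on the spheres about the origin. -/
def ActsFreely (G : Subgroup (W ≃ₗᵢ[ℝ] W)) : Prop :=
  ∀ g ∈ G, g ≠ 1 → ∀ x : W, x ≠ 0 → g x ≠ x

/-- The smooth vector fields of constant length `r` on `M = (sphere of radius ρ)/G`: the smooth
tangent vector fields of length `r` on the sphere of radius `ρ` that are invariant under `G`.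
(A field on the sphere is given by an ambient map `V`, smooth near each point of the sphere.) -/
structure IsField (G : Subgroup (W ≃ₗᵢ[ℝ] W)) (ρ r : ℝ) (V : W → W) : Prop where
  smooth : ∀ x, ‖x‖ = ρ → ContDiffAt ℝ ∞ V x
  tangent : ∀ x, ‖x‖ = ρ → (inner ℝ x (V x) : ℝ) = 0
  length : ∀ x, ‖x‖ = ρ → ‖V x‖ = r
  invariant : ∀ g ∈ G, ∀ x, ‖x‖ = ρ → V (g x) = g (V x)

/-- The Levi-Civita covariant derivative `∇V` at the point `x` of the sphere, an endomorphism of
the tangent space `x^⊥`: the tangential part of the ambient derivative. -/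
noncomputable def nabla (V : W → W) (x : W) :
    ((ℝ ∙ x)ᗮ : Submodule ℝ W) →L[ℝ] ((ℝ ∙ x)ᗮ : Submodule ℝ W) :=
  (ℝ ∙ x)ᗮ.orthogonalProjectionOnto ∘L fderiv ℝ V x ∘L (ℝ ∙ x)ᗮ.subtypeL

/-- `√det(I + Aᵗ A)` for an endomorphism `A` of a Euclidean space. -/
noncomputable def sqrtDet (A : W →L[ℝ] W) : ℝ :=
  Real.sqrt (ContinuousLinearMap.id ℝ W + A.adjoint ∘L A).det

/-- The volume density `√det(I + (∇V)ᵗ ∇V)` at `x` (a determinant on the tangent space `x^⊥`). -/
noncomputable def density (V : W → W) (x : W) : ℝ := sqrtDet (nabla V x)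

variable [MeasurableSpace W] [BorelSpace W]

/-- The integral over `M = (sphere of radius ρ)/G` of a `G`-invariant function `f` on the sphere of
radius `ρ`: `1/|G|` times its integral over that sphere, written in terms of the surface measure of
the unit sphere. -/
noncomputable def integralM (G : Subgroup (W ≃ₗᵢ[ℝ] W)) (ρ : ℝ) (f : W → ℝ) : ℝ :=
  (Nat.card G : ℝ)⁻¹ * ∫ u : sphere (0 : W) 1, ρ ^ (Module.finrank ℝ W - 1) * f (ρ • (u : W))
    ∂(volume : Measure W).toSphere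

/-- The volume of the vector field `V` on `M`. -/
noncomputable def Vol (G : Subgroup (W ≃ₗᵢ[ℝ] W)) (ρ : ℝ) (V : W → W) : ℝ :=
  integralM G ρ (density V)

/-- The volume of `M`. -/
noncomputable def volM (G : Subgroup (W ≃ₗᵢ[ℝ] W)) (ρ : ℝ) : ℝ :=
  integralM G ρ (fun _ => 1)

/-- `𝒱(M, r)`: the infimum of the volumes of the smooth vector fields of length `r` on `M`. -/
noncomputable def infVol (G : Subgroup (W ≃ₗᵢ[ℝ] W)) (ρ r : ℝ) : ℝ :=
  sInf {v : ℝ | ∃ V, IsField G ρ r V ∧ Vol G ρ V = v}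

/-- `V` is a Hopf field of length `r`: on the sphere of radius `ρ` it is `x ↦ J x` with `J` linear
and skew-symmetric, and of constant length `r` (a Killing field of constant length `r`). -/
def IsHopf (ρ r : ℝ) (V : W → W) : Prop :=
  ∃ J : W →L[ℝ] W, (∀ x, (inner ℝ x (J x) : ℝ) = 0) ∧ (∀ x, ‖x‖ = ρ → ‖J x‖ = r) ∧
    ∀ x, ‖x‖ = ρ → V x = J x

/-- What is proved about `M = (sphere of radius ρ)/G` and the length `r`, with `c = 1/ρ²` the
curvature and `n = 2m+1` the dimension: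
* `M` carries a Hopf field of length `r`;
* `𝒱(M, r) = (1 + c r²)^m vol(M)`;
* a smooth vector field `V` of length `r` on `M` satisfies `Vol(V) = 𝒱(M, r)` if and only if it is a
  Hopf field. -/
def MinimisersAreHopf (G : Subgroup (W ≃ₗᵢ[ℝ] W)) (m : ℕ) (ρ r : ℝ) : Prop :=
  (∃ H, IsField G ρ r H ∧ IsHopf ρ r H) ∧
  infVol G ρ r = (1 + r ^ 2 / ρ ^ 2) ^ m * volM G ρ ∧
  (∀ V, IsField G ρ r V → (Vol G ρ V = infVol G ρ r ↔ IsHopf ρ r V))

variable (W) in
/-- The statement for all proper quotients of the spheres of `W`: for all radii `ρ > 0` (all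
curvatures `c = 1/ρ²`), all lengths `r > 0` and all nontrivial finite groups `G` of linear
isometries of `W` that act freely on the spheres, the minimisers of length `r` on
`M = (sphere of radius ρ)/G` are exactly the Hopf fields of length `r` (`MinimisersAreHopf`). -/
def HopfFieldsAreTheMinimisers (m : ℕ) : Prop :=
  ∀ ρ r : ℝ, 0 < ρ → 0 < r → ∀ G : Subgroup (W ≃ₗᵢ[ℝ] W), Finite G → ActsFreely G →
    G ≠ ⊥ → MinimisersAreHopf G m ρ r

end definitions

open Pool.Agent.Helper82.Hf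

section aux

/-- The Euclidean space `ℝ^(2m+2)`, which contains the round spheres `S^(2m+1)(ρ)`. -/
abbrev Amb (m : ℕ) := EuclideanSpace ℝ (Fin (2 * m + 2))

variable {m : ℕ} {ρ r : ℝ} {V : Amb m → Amb m} {G : Subgroup (Amb m ≃ₗᵢ[ℝ] Amb m)}

/-- the rescaled field on the unit sphere -/
noncomputable def V1 (ρ : ℝ) (V : Amb m → Amb m) (u : Amb m) : Amb m := ρ⁻¹ • V (ρ • u)

theorem V1_fderiv (hρ : 0 < ρ) (hV : IsField G ρ r V) {u : Amb m} (hu : ‖u‖ = 1) :
    fderiv ℝ (V1 ρ V) u = fderiv ℝ V (ρ • u) := by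
  have hn : ‖ρ • u‖ = ρ := by rw [norm_smul, hu, mul_one, Real.norm_eq_abs, abs_of_pos hρ]
  have h1 : HasFDerivAt V (fderiv ℝ V (ρ • u)) (ρ • u) :=
    ((hV.smooth _ hn).differentiableAt (by simp)).hasFDerivAt
  have h2 : HasFDerivAt (fun u : Amb m => ρ • u) (ρ • ContinuousLinearMap.id ℝ (Amb m)) u :=
    (hasFDerivAt_id u).const_smul ρ
  have h3 : HasFDerivAt (V1 ρ V) (ρ⁻¹ • ((fderiv ℝ V (ρ • u)).comp (ρ • ContinuousLinearMap.id ℝ (Amb m)))) u :=
    (HasFDerivAt.comp (g := V) u h1 h2).const_smul ρ⁻¹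
  rw [h3.fderiv]
  refine ContinuousLinearMap.ext fun v => ?_
  simp [smul_smul, inv_mul_cancel₀ hρ.ne']

theorem density_eq (hρ : 0 < ρ) (hV : IsField G ρ r V) {u : Amb m} (hu : ‖u‖ = 1) :
    density V (ρ • u) = dn (V1 ρ V) u := by
  have hspan : (ℝ ∙ (ρ • u) : Submodule ℝ (Amb m)) = ℝ ∙ u :=
    Submodule.span_singleton_smul_eq (IsUnit.mk0 ρ hρ.ne') u
  have h1 := det_compress ((ℝ ∙ (ρ • u))ᗮ : Submodule ℝ (Amb m)) (fderiv ℝ V (ρ • u))
  unfold density sqrtDet dn La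
  rw [V1_fderiv hρ hV hu]
  have h2 : (ContinuousLinearMap.id ℝ ((ℝ ∙ (ρ • u))ᗮ : Submodule ℝ (Amb m)) +
    (nabla V (ρ • u)).adjoint ∘L nabla V (ρ • u)).det = _ := h1
  rw [h2]
  simp only [hspan]

theorem neg_mem [Finite G] (hfree : ActsFreely G) (heven : Even (Nat.card G)) :
    ∃ g ∈ G, ∀ x : Amb m, g x = -x := by
  have : Fact (Nat.Prime 2) := ⟨Nat.prime_two⟩
  obtain ⟨g, hg⟩ := exists_prime_orderOf_dvd_card' (G := G) 2 heven.two_dvd
  have h1 : g ≠ 1 := by
    intro hh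
    rw [hh, orderOf_one] at hg
    norm_num at hg
  have h2 : g ^ 2 = 1 := by
    have h0 := pow_orderOf_eq_one g
    rwa [hg] at h0
  refine ⟨(g : Amb m ≃ₗᵢ[ℝ] Amb m), g.2, fun x => ?_⟩
  have h3 : ∀ x : Amb m, (g : Amb m ≃ₗᵢ[ℝ] Amb m) ((g : Amb m ≃ₗᵢ[ℝ] Amb m) x) = x := by
    intro x
    have h4 : ((g ^ 2 : G) : Amb m ≃ₗᵢ[ℝ] Amb m) x = x := by rw [h2]; rfl
    rw [sq] at h4
    exact h4
  by_contra hne
  refine hfree _ g.2 (fun hh => h1 (Subtype.ext hh)) ((g : Amb m ≃ₗᵢ[ℝ] Amb m) x + x) ?_ ?_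
  · intro hh
    exact hne (eq_neg_of_add_eq_zero_left hh)
  · rw [map_add, h3, add_comm]

theorem V1_UF (hρ : 0 < ρ) (hr : 0 < r) (hV : IsField G ρ r V) (hneg : ∃ g ∈ G, ∀ x : Amb m, g x = -x) :
    UF (V1 ρ V) (r / ρ) := by
  have hn : ∀ u : Amb m, ‖u‖ = 1 → ‖ρ • u‖ = ρ := by
    intro u hu
    rw [norm_smul, hu, mul_one, Real.norm_eq_abs, abs_of_pos hρ]
  refine ⟨by positivity, ?_, ?_, ?_, ?_⟩
  · intro x hx
    have h1 : ContDiffAt ℝ 1 V (ρ • x) := (hV.smooth _ (hn x hx)).of_le (by exact_mod_cast le_top)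
    have h2 : ContDiffAt ℝ 1 (fun u : Amb m => ρ • u) x := (contDiff_const_smul ρ).contDiffAt
    exact (ContDiffAt.comp (g := V) x h1 h2).const_smul ρ⁻¹
  · intro x hx
    have h1 := hV.tangent _ (hn x hx)
    rw [inner_smul_left] at h1
    simp only [conj_trivial, mul_eq_zero, hρ.ne', false_or] at h1
    unfold V1
    rw [inner_smul_right, h1, mul_zero]
  · intro x hx
    unfold V1
    rw [norm_smul, hV.length _ (hn x hx), norm_inv, Real.norm_eq_abs, abs_of_pos hρ]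
    field_simp
  · intro x hx
    obtain ⟨g, hg, hgx⟩ := hneg
    unfold V1
    have h1 := hV.invariant g hg _ (hn x hx)
    rw [hgx, hgx] at h1
    rw [smul_neg, h1, smul_neg]

theorem V1_UG (hρ : 0 < ρ) (hr : 0 < r) (hV : IsField G ρ r V) {g : Amb m ≃ₗᵢ[ℝ] Amb m} (hg : g ∈ G) :
    Pool.Agent.Helper82.Fld.UG g (V1 ρ V) (r / ρ) := by
  have hn : ∀ u : Amb m, ‖u‖ = 1 → ‖ρ • u‖ = ρ := by
    intro u hu
    rw [norm_smul, hu, mul_one, Real.norm_eq_abs, abs_of_pos hρ]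
  refine ⟨by positivity, ?_, ?_, ?_, ?_⟩
  · intro x hx
    have h1 : ContDiffAt ℝ 1 V (ρ • x) := (hV.smooth _ (hn x hx)).of_le (by exact_mod_cast le_top)
    have h2 : ContDiffAt ℝ 1 (fun u : Amb m => ρ • u) x := (contDiff_const_smul ρ).contDiffAt
    exact (ContDiffAt.comp (g := V) x h1 h2).const_smul ρ⁻¹
  · intro x hx
    have h1 := hV.tangent _ (hn x hx)
    rw [inner_smul_left] at h1
    simp only [conj_trivial, mul_eq_zero, hρ.ne', false_or] at h1
    unfold V1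
    rw [inner_smul_right, h1, mul_zero]
  · intro x hx
    unfold V1
    rw [norm_smul, hV.length _ (hn x hx), norm_inv, Real.norm_eq_abs, abs_of_pos hρ]
    field_simp
  · intro x hx
    unfold V1
    rw [← map_smul, hV.invariant g hg _ (hn x hx), map_smul]

/-- the unit sphere statement -/
theorem unit_all [Finite G] (hfree : ActsFreely G) (hne : G ≠ ⊥) (hρ : 0 < ρ) (hr : 0 < r)
    (hV : IsField G ρ r V) :
    (1 + (r / ρ) ^ 2) ^ m * (volume : Measure (Amb m)).toSphere.real univ ≤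
      ∫ x : sphere (0 : Amb m) 1, dn (V1 ρ V) x ∂(volume : Measure (Amb m)).toSphere ∧
    ((∫ x : sphere (0 : Amb m) 1, dn (V1 ρ V) x ∂(volume : Measure (Amb m)).toSphere) =
      (1 + (r / ρ) ^ 2) ^ m * (volume : Measure (Amb m)).toSphere.real univ ↔ Lin (V1 ρ V) (r / ρ)) := by
  by_cases heven : Even (Nat.card G)
  · exact unit_final m (V1_UF hρ hr hV (neg_mem hfree heven))
  · have hcard : Nat.card G ≠ 1 := by
      intro h1
      exact hne (Subgroup.card_eq_one.mp h1)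
    set p := (Nat.card G).minFac with hp
    have hpp : p.Prime := Nat.minFac_prime hcard
    have hpd : p ∣ Nat.card G := Nat.minFac_dvd _
    have hp2 : p ≠ 2 := by
      intro h2
      rw [h2] at hpd
      exact heven (even_iff_two_dvd.mpr hpd)
    have : Fact p.Prime := ⟨hpp⟩
    obtain ⟨g, hg⟩ := exists_prime_orderOf_dvd_card' (G := G) p hpd
    have hg1 : (g : Amb m ≃ₗᵢ[ℝ] Amb m) ≠ 1 := by
      intro hh
      have h1 : g = 1 := Subtype.ext hh
      rw [h1, orderOf_one] at hg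
      exact hpp.one_lt.ne hg
    have hgp : (g : Amb m ≃ₗᵢ[ℝ] Amb m) ^ p = 1 := by
      have h0 := pow_orderOf_eq_one g
      rw [hg] at h0
      have h1 := congrArg Subtype.val h0
      exact h1
    have hgf : ∀ x : Amb m, (g : Amb m ≃ₗᵢ[ℝ] Amb m) x = x → x = 0 := by
      intro x hx
      by_contra h0
      exact hfree _ g.2 hg1 x h0 hx
    have hA : Pool.Agent.Helper82.Rig.AreaBound (g : Amb m ≃ₗᵢ[ℝ] Amb m)
        (Pool.Agent.Helper82.Fld.gg (g : Amb m ≃ₗᵢ[ℝ] Amb m)) := by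
      intro Z hZ hc he
      exact Pool.Agent.Helper954.Hopf.AB.area_bound p hp2 _ _ hgp
        (by rw [← Pool.Agent.Helper82.Fld.gg_pow, hgp, Pool.Agent.Helper82.Fld.gg_one]) hgf
        (Pool.Agent.Helper82.Fld.gg_free _ hgf) Z ⟨hc, hZ.hom, hZ.ne, hZ.diff, he⟩
    exact Pool.Agent.Helper82.Fld.unit_final m (V1_UG hρ hr hV g.2) hA hpp.pos hgp

theorem Lin_iff (hρ : 0 < ρ) (hr : 0 < r) : Lin (V1 ρ V) (r / ρ) ↔ IsHopf ρ r V := by
  have hn : ∀ u : Amb m, ‖u‖ = 1 → ‖ρ • u‖ = ρ := by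
    intro u hu
    rw [norm_smul, hu, mul_one, Real.norm_eq_abs, abs_of_pos hρ]
  have hn' : ∀ x : Amb m, ‖x‖ = ρ → ‖ρ⁻¹ • x‖ = 1 := by
    intro x hx
    rw [norm_smul, norm_inv, hx, Real.norm_eq_abs, abs_of_pos hρ, inv_mul_cancel₀ hρ.ne']
  constructor
  · rintro ⟨J, h1, h2, h3⟩
    refine ⟨J, h1, fun x hx => ?_, fun x hx => ?_⟩
    · rw [h2, hx]; field_simp
    · have h4 := h3 _ (hn' x hx)
      unfold V1 at h4
      rw [smul_smul, mul_inv_cancel₀ hρ.ne', one_smul, map_smul] at h4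
      exact smul_right_injective _ (inv_ne_zero hρ.ne') h4
  · rintro ⟨J, h1, h2, h3⟩
    refine ⟨J, h1, fun x => ?_, fun x hx => ?_⟩
    · by_cases hx : x = 0
      · rw [hx]; simp
      · have hx' : ‖x‖ ≠ 0 := norm_ne_zero_iff.mpr hx
        have h4 := h2 (ρ • ‖x‖⁻¹ • x) (hn _ (nrm hx))
        rw [map_smul, map_smul, norm_smul, norm_smul, norm_inv, norm_norm, Real.norm_eq_abs,
          abs_of_pos hρ] at h4
        field_simp at h4 ⊢
        linarith
    · unfold V1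
      rw [h3 _ (hn x hx), map_smul, smul_smul, inv_mul_cancel₀ hρ.ne', one_smul]

theorem bound [Finite G] (hfree : ActsFreely G) (hne : G ≠ ⊥) (hρ : 0 < ρ) (hr : 0 < r)
    (hV : IsField G ρ r V) :
    (1 + r ^ 2 / ρ ^ 2) ^ m * volM G ρ ≤ Vol G ρ V ∧
      (Vol G ρ V = (1 + r ^ 2 / ρ ^ 2) ^ m * volM G ρ ↔ IsHopf ρ r V) := by
  obtain ⟨h1, h2⟩ := unit_all hfree hne hρ hr hV
  rw [div_pow] at h1 h2
  have hc : 0 < (Nat.card G : ℝ)⁻¹ * ρ ^ (2 * m + 1) := by
    have : 0 < (Nat.card G : ℝ) := by exact_mod_cast Nat.card_pos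
    positivity
  have e1 : volM G ρ = ((Nat.card G : ℝ)⁻¹ * ρ ^ (2 * m + 1)) * (volume : Measure (Amb m)).toSphere.real univ := by
    unfold volM integralM
    rw [integral_const, smul_eq_mul, finrank_euclideanSpace_fin]
    show _ * (_ * (ρ ^ (2 * m + 1) * 1)) = _
    ring
  have e2 : Vol G ρ V = ((Nat.card G : ℝ)⁻¹ * ρ ^ (2 * m + 1)) *
      ∫ u : sphere (0 : Amb m) 1, dn (V1 ρ V) u ∂(volume : Measure (Amb m)).toSphere := by
    unfold Vol integralM
    rw [integral_const_mul, mul_assoc, finrank_euclideanSpace_fin]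
    show _ * (ρ ^ (2 * m + 1) * _) = _
    congr 2
    apply integral_congr_ae
    filter_upwards with u
    exact density_eq hρ hV (by simp)
  refine ⟨?_, ?_⟩
  · rw [e1, e2, mul_left_comm]
    exact mul_le_mul_of_nonneg_left h1 hc.le
  · rw [e1, e2, mul_left_comm, mul_right_inj' hc.ne', ← Lin_iff hρ hr]
    exact h2

/-- existence of a Hopf field -/
theorem exists_hopf [Finite G] (hfree : ActsFreely G) (hρ : 0 < ρ) (hr : 0 < r) :
    ∃ H, IsField G ρ r H ∧ IsHopf ρ r H := by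
  obtain ⟨J, h1, h2, h3⟩ := Pool.Agent.Helper954.Hopf.EX3.exists_J_all (W := Amb m)
    (by rw [finrank_euclideanSpace_fin]; exact ⟨m + 1, by ring⟩) G hfree
  have hs : ∀ x, (inner ℝ x (((r / ρ) • J) x) : ℝ) = 0 := by
    intro x
    rw [_root_.smul_apply, inner_smul_right, h1, mul_zero]
  have hl : ∀ x, ‖x‖ = ρ → ‖((r / ρ) • J) x‖ = r := by
    intro x hx
    rw [_root_.smul_apply, norm_smul, h2, hx, Real.norm_eq_abs, abs_of_pos (by positivity)]
    field_simp
  refine ⟨fun x => ((r / ρ) • J) x, ⟨?_, fun x _ => hs x, hl, ?_⟩, (r / ρ) • J, hs, hl, fun x _ => rfl⟩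
  · intro x _
    exact ((r / ρ) • J).contDiff.contDiffAt
  · intro g hg x _
    show ((r / ρ) • J) (g x) = g (((r / ρ) • J) x)
    rw [_root_.smul_apply, _root_.smul_apply, h3 g hg, map_smul]

end aux

/-- **Hopf fields are exactly the minimisers of the volume.** Let `M = S^(2m+1)(ρ)/G` with `G` a
nontrivial finite group acting freely by isometries, and `r > 0`. Then `M` carries a Hopf field of
length `r`, `𝒱(M, r) = (1 + r²/ρ²)^m vol(M)`, and a smooth vector field `V` of length `r` on `M`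
satisfies `Vol(V) = 𝒱(M, r)` if and only if it is a Hopf field. -/
theorem result (m : ℕ) : HopfFieldsAreTheMinimisers (EuclideanSpace ℝ (Fin (2 * m + 2))) m := by
  intro ρ r hρ hr G hfin hfree hne
  unfold MinimisersAreHopf
  have hb : ∀ V, IsField G ρ r V → (1 + r ^ 2 / ρ ^ 2) ^ m * volM G ρ ≤ Vol G ρ V :=
    fun V hV => (bound hfree hne hρ hr hV).1
  have he : ∀ V, IsField G ρ r V →
      (Vol G ρ V = (1 + r ^ 2 / ρ ^ 2) ^ m * volM G ρ ↔ IsHopf ρ r V) :=
    fun V hV => (bound hfree hne hρ hr hV).2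
  obtain ⟨H, hH, hHopf⟩ := exists_hopf (m := m) hfree hρ hr
  have hHv := (he H hH).mpr hHopf
  have hinf : infVol G ρ r = (1 + r ^ 2 / ρ ^ 2) ^ m * volM G ρ := by
    have h1 : IsLeast {v : ℝ | ∃ V, IsField G ρ r V ∧ Vol G ρ V = v} ((1 + r ^ 2 / ρ ^ 2) ^ m * volM G ρ) := by
      refine ⟨⟨H, hH, hHv⟩, ?_⟩
      rintro _ ⟨V, hV, rfl⟩
      exact hb V hV
    exact h1.csInf_eq
  refine ⟨⟨H, hH, hHopf⟩, hinf, fun V hV => ?_⟩
  rw [hinf]
  exact he V hV

end Pool.Agent.Results.MP_8bdec9_gt.AllSpaceForms
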